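import Pool.Agent.H447R2.ML.R5
import Pool.Agent.H447R2.ML.Spec

set_option autoImplicit false

/-!
# The generalised Lenstra-Pomerance-Wagstaff conjecture for almost every amplitude

Let `a > 1` and `-a < b < a` be coprime integers.  For real `β` and a prime `p` let `W a b β p` be
the `p`-rough part (the product, with multiplicity, of the prime factors larger than `p`) of the
least integer `≥ β a ^ p - b ^ p / (a - b)`.  For `β = 1 / (a - b)` this is
`M_p(a, b) = (a ^ p - b ^ p) / (a - b)` itself, for every prime `p` not dividing `a - b`.  Let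
`N a b β n` be the number of primes `p ≤ n` with `W a b β p` prime.  We prove that the mean of
`N a b β n` over every window of amplitudes is asymptotic to `(e ^ γ / log a) log n`, and that for
almost every `β > 0` we have `liminf N a b β n / log n ≤ e ^ γ / log a ≤ limsup N a b β n / log n`.
-/

namespace Pool.Agent.Results.MP_de9007_nt.AlmostEveryAmplitude

open Filter Topology MeasureTheory

/-- The product, with multiplicity, of the prime factors of `m` that are larger than `p`. -/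
def roughPart (p m : ℕ) : ℕ := (m.primeFactorsList.filter (fun r => p < r)).prod

/-- The `p`-rough part of the least integer `≥ β a ^ p - b ^ p / (a - b)`. -/
noncomputable def W (a b : ℤ) (β : ℝ) (p : ℕ) : ℕ :=
  roughPart p ⌈β * (a : ℝ) ^ p - (b : ℝ) ^ p / ((a : ℝ) - b)⌉₊

/-- The number of primes `p ≤ n` for which `W a b β p` is prime. -/
noncomputable def N (a b : ℤ) (β : ℝ) (n : ℕ) : ℕ :=
  ((Finset.range (n + 1)).filter (fun p => p.Prime ∧ (W a b β p).Prime)).card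

/-- The number of primes `p ≤ n` for which `M_p(a, b) = (a ^ p - b ^ p) / (a - b)` is prime. -/
def NM (a b : ℤ) (n : ℕ) : ℕ :=
  ((Finset.range (n + 1)).filter
    (fun p => p.Prime ∧ ((a ^ p - b ^ p) / (a - b)).toNat.Prime)).card

lemma quot_eq {a b : ℤ} (h2 : b < a) (p : ℕ) :
    (a ^ p - b ^ p) / (a - b) = ∑ i ∈ Finset.range p, a ^ i * b ^ (p - 1 - i) := by
  have hgeom : (∑ i ∈ Finset.range p, a ^ i * b ^ (p - 1 - i)) * (a - b) = a ^ p - b ^ p :=
    (Commute.all a b).geom_sum₂_mul p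
  rw [← hgeom]
  exact Int.mul_ediv_cancel _ (by omega)

lemma W_special {a b : ℤ} (hab : IsCoprime a b) (h1 : -a < b) (h2 : b < a) {p : ℕ}
    (hp : p.Prime) (hpd : ¬ (p : ℤ) ∣ a - b) :
    (W a b (1 / ((a : ℝ) - b)) p : ℤ) = (a ^ p - b ^ p) / (a - b) := by
  have hx := Pool.Agent.H447R2.ML.quot_real h2 p
  have h := Pool.Agent.H447R2.ML.rough_quot hab h1 h2 hp hpd (x := 1 / ((a : ℝ) - b) *
    (a : ℝ) ^ p - (b : ℝ) ^ p / ((a : ℝ) - b)) rfl
  have hpos := Pool.Agent.H447R2.ML.geom_pos h1 h2 hp.ne_zero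
  rw [quot_eq h2, ← h]
  unfold W
  have e : ⌈1 / ((a : ℝ) - b) * (a : ℝ) ^ p - (b : ℝ) ^ p / ((a : ℝ) - b)⌉₊ =
      ⌊1 / ((a : ℝ) - b) * (a : ℝ) ^ p - (b : ℝ) ^ p / ((a : ℝ) - b)⌋₊ := by
    rw [← hx]
    obtain ⟨M, hM⟩ := Int.eq_ofNat_of_zero_le hpos.le
    rw [hM]
    simp
  rw [e]
  rfl

/-- The counting function at the amplitude `1 / (a - b)` counts the primes `M_p(a, b)`, up to the
primes dividing `a - b`; mean value over the amplitudes and the almost everywhere statement. -/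
theorem result (a b : ℤ) (ha : 1 < a) (hab : IsCoprime a b) (h1 : -a < b) (h2 : b < a) :
    ((∀ p : ℕ, p.Prime → ¬ (p : ℤ) ∣ a - b →
        (W a b (1 / ((a : ℝ) - b)) p : ℤ) = (a ^ p - b ^ p) / (a - b)) ∧
      ∀ n : ℕ, NM a b n ≤ N a b (1 / ((a : ℝ) - b)) n + (a - b).natAbs.primeFactors.card ∧
        N a b (1 / ((a : ℝ) - b)) n ≤ NM a b n + (a - b).natAbs.primeFactors.card) ∧
    (∀ s t : ℝ, s < t → Tendsto (fun n : ℕ =>
        (∫ u in s..t, (N a b (Real.exp u) n : ℝ)) / ((t - s) * Real.log n)) atTop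
        (𝓝 (Real.exp Real.eulerMascheroniConstant / Real.log a))) ∧
    (∀ᵐ β : ℝ, 0 < β →
      (∀ c : ℝ, c < Real.exp Real.eulerMascheroniConstant / Real.log a →
        ∃ᶠ n : ℕ in atTop, c * Real.log n < N a b β n) ∧
      (∀ c : ℝ, Real.exp Real.eulerMascheroniConstant / Real.log a < c →
        ∃ᶠ n : ℕ in atTop, (N a b β n : ℝ) < c * Real.log n)) := by
  have haR : (1 : ℝ) < a := by exact_mod_cast ha
  have hab' : (1 : ℝ) ≤ (a : ℝ) - b := by
    have : (1 : ℤ) ≤ a - b := by omega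
    exact_mod_cast this
  have hbabs : |(b : ℝ)| < a := by
    have : |b| < a := abs_lt.2 ⟨h1, h2⟩
    exact_mod_cast this
  set κ : ℝ := max |(b : ℝ)| 1 with hκ
  have hκ0 : 0 ≤ κ := le_trans (abs_nonneg _) (le_max_left _ _)
  have hκ1 : 1 ≤ κ := le_max_right _ _
  have hκa : κ < a := max_lt hbabs haR
  have key := Pool.Agent.H447R2.ML.shift_ceil (α := (a : ℝ)) (κ := κ) (C := 2)
    (g := fun p => 1 - (b : ℝ) ^ p / ((a : ℝ) - b)) haR hκ0 hκa (by
      intro p
      have e1 : |(b : ℝ) ^ p / ((a : ℝ) - b)| ≤ κ ^ p := by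
        rw [abs_div, abs_pow, abs_of_pos (by linarith : (0 : ℝ) < (a : ℝ) - b)]
        refine (div_le_self (pow_nonneg (abs_nonneg _) _) hab').trans ?_
        exact pow_le_pow_left₀ (abs_nonneg _) (le_max_left _ _) p
      have e2 : (1 : ℝ) ≤ κ ^ p := one_le_pow₀ hκ1
      have e3 := abs_sub (1 : ℝ) ((b : ℝ) ^ p / ((a : ℝ) - b))
      rw [abs_one] at e3
      show |1 - (b : ℝ) ^ p / ((a : ℝ) - b)| ≤ 2 * κ ^ p
      linarith)
  have hceil : ∀ x : ℝ, ⌈x + 1⌉₊ - 1 = ⌈x⌉₊ := by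
    intro x
    rcases le_or_gt 0 x with hx | hx
    · rw [Nat.ceil_add_one hx]; rfl
    · have h3 : ⌈x⌉₊ = 0 := Nat.ceil_eq_zero.2 hx.le
      have h4 : ⌈x + 1⌉₊ ≤ 1 := by
        rw [Nat.ceil_le]; push_cast; linarith
      omega
  have hM : ∀ (x : ℝ) (n : ℕ), Pool.Agent.H447R2.ML.cc
      (fun p x => x * (a : ℝ) ^ p + (1 - (b : ℝ) ^ p / ((a : ℝ) - b))) x n = N a b x n := by
    intro x n
    unfold Pool.Agent.H447R2.ML.cc N W
    have e : ∀ p : ℕ, ⌈x * (a : ℝ) ^ p + (1 - (b : ℝ) ^ p / ((a : ℝ) - b))⌉₊ - 1 =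
        ⌈x * (a : ℝ) ^ p - (b : ℝ) ^ p / ((a : ℝ) - b)⌉₊ := by
      intro p
      rw [← hceil (x * (a : ℝ) ^ p - (b : ℝ) ^ p / ((a : ℝ) - b))]
      congr 2
      ring
    simp only [e]
    rfl
  simp only [hM] at key
  refine ⟨⟨fun p hp hpd => W_special hab h1 h2 hp hpd, fun n => ?_⟩, key⟩
  have hne : (a - b).natAbs ≠ 0 := by
    rw [Int.natAbs_ne_zero]; omega
  have hmem : ∀ p : ℕ, p.Prime → (p : ℤ) ∣ a - b → p ∈ (a - b).natAbs.primeFactors := by
    intro p hp hd
    rw [Nat.mem_primeFactors]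
    exact ⟨hp, Int.natCast_dvd.1 hd, hne⟩
  have hto : ∀ p : ℕ, p.Prime → ¬ (p : ℤ) ∣ a - b →
      ((a ^ p - b ^ p) / (a - b)).toNat = W a b (1 / ((a : ℝ) - b)) p := by
    intro p hp hpd
    rw [← W_special hab h1 h2 hp hpd]
    simp
  constructor
  · unfold NM N
    refine le_trans (Finset.card_le_card (t := (Finset.range (n + 1)).filter
      (fun p => p.Prime ∧ (W a b (1 / ((a : ℝ) - b)) p).Prime) ∪ (a - b).natAbs.primeFactors) ?_)
      (Finset.card_union_le _ _)
    intro p hp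
    rw [Finset.mem_filter] at hp
    by_cases hd : (p : ℤ) ∣ a - b
    · exact Finset.mem_union_right _ (hmem p hp.2.1 hd)
    · refine Finset.mem_union_left _ (Finset.mem_filter.2 ⟨hp.1, hp.2.1, ?_⟩)
      rw [← hto p hp.2.1 hd]
      exact hp.2.2
  · unfold NM N
    refine le_trans (Finset.card_le_card (t := (Finset.range (n + 1)).filter
      (fun p => p.Prime ∧ ((a ^ p - b ^ p) / (a - b)).toNat.Prime) ∪
        (a - b).natAbs.primeFactors) ?_)
      (Finset.card_union_le _ _)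
    intro p hp
    rw [Finset.mem_filter] at hp
    by_cases hd : (p : ℤ) ∣ a - b
    · exact Finset.mem_union_right _ (hmem p hp.2.1 hd)
    · refine Finset.mem_union_left _ (Finset.mem_filter.2 ⟨hp.1, hp.2.1, ?_⟩)
      rw [hto p hp.2.1 hd]
      exact hp.2.2

end Pool.Agent.Results.MP_de9007_nt.AlmostEveryAmplitude
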