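import Pool.Agent.H447R2.ML.Law
import Pool.Agent.H447R2.ML.Spec

set_option autoImplicit false

/-!
# The generalised Lenstra-Pomerance-Wagstaff asymptotic for almost every base and amplitude

Let `a > 1` and `-a < b < a` be coprime integers.  For real `α`, `β` and a prime `p` let
`W a b α β p` be the `p`-rough part (the product, with multiplicity, of the prime factors larger
than `p`) of the integer part of `β α ^ p - b ^ p / (a - b)`.  At the point
`(α, β) = (a, 1 / (a - b))` this is `M_p(a, b) = (a ^ p - b ^ p) / (a - b)`, for every prime `p` not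
dividing `a - b`.  Let `N a b α β n` be the number of primes `p ≤ n` with `W a b α β p` prime.  We
prove `N a b α β n ~ (e ^ γ / log α) log n` for almost every `(α, β)` with `α > max (|b|, 1)` and
`β > 0`, a region which contains the point `(a, 1 / (a - b))`.
-/

namespace Pool.Agent.Results.MP_de9007_nt.AsymptoticLaw

open Filter Topology MeasureTheory

/-- The product, with multiplicity, of the prime factors of `m` that are larger than `p`. -/
def roughPart (p m : ℕ) : ℕ := (m.primeFactorsList.filter (fun r => p < r)).prod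

/-- The `p`-rough part of the integer part of `β α ^ p - b ^ p / (a - b)`. -/
noncomputable def W (a b : ℤ) (α β : ℝ) (p : ℕ) : ℕ :=
  roughPart p ⌊β * α ^ p - (b : ℝ) ^ p / ((a : ℝ) - b)⌋₊

/-- The number of primes `p ≤ n` for which `W a b α β p` is prime. -/
noncomputable def N (a b : ℤ) (α β : ℝ) (n : ℕ) : ℕ :=
  ((Finset.range (n + 1)).filter (fun p => p.Prime ∧ (W a b α β p).Prime)).card

/-- The number of primes `p ≤ n` for which `M_p(a, b) = (a ^ p - b ^ p) / (a - b)` is prime. -/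
def NM (a b : ℤ) (n : ℕ) : ℕ :=
  ((Finset.range (n + 1)).filter
    (fun p => p.Prime ∧ ((a ^ p - b ^ p) / (a - b)).toNat.Prime)).card

lemma quot_eq {a b : ℤ} (h2 : b < a) (p : ℕ) :
    (a ^ p - b ^ p) / (a - b) = ∑ i ∈ Finset.range p, a ^ i * b ^ (p - 1 - i) := by
  have hgeom : (∑ i ∈ Finset.range p, a ^ i * b ^ (p - 1 - i)) * (a - b) = a ^ p - b ^ p :=
    (Commute.all a b).geom_sum₂_mul p
  rw [← hgeom]
  exact Int.mul_ediv_cancel _ (by omega)

lemma W_special {a b : ℤ} (hab : IsCoprime a b) (h1 : -a < b) (h2 : b < a) {p : ℕ}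
    (hp : p.Prime) (hpd : ¬ (p : ℤ) ∣ a - b) :
    (W a b a (1 / ((a : ℝ) - b)) p : ℤ) = (a ^ p - b ^ p) / (a - b) := by
  have h := Pool.Agent.H447R2.ML.rough_quot hab h1 h2 hp hpd (x := 1 / ((a : ℝ) - b) *
    (a : ℝ) ^ p - (b : ℝ) ^ p / ((a : ℝ) - b)) rfl
  rw [quot_eq h2, ← h]
  rfl

/-- The point `(a, 1 / (a - b))` corresponds to the numbers `M_p(a, b)`; the asymptotic law for
almost every point. -/
theorem result (a b : ℤ) (ha : 1 < a) (hab : IsCoprime a b) (h1 : -a < b) (h2 : b < a) :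
    ((∀ p : ℕ, p.Prime → ¬ (p : ℤ) ∣ a - b →
        (W a b a (1 / ((a : ℝ) - b)) p : ℤ) = (a ^ p - b ^ p) / (a - b)) ∧
      ∀ n : ℕ, NM a b n ≤ N a b a (1 / ((a : ℝ) - b)) n + (a - b).natAbs.primeFactors.card ∧
        N a b a (1 / ((a : ℝ) - b)) n ≤ NM a b n + (a - b).natAbs.primeFactors.card) ∧
    max |(b : ℝ)| 1 < a ∧
    (∀ᵐ z : ℝ × ℝ, max |(b : ℝ)| 1 < z.1 → 0 < z.2 →
      Tendsto (fun n : ℕ => (N a b z.1 z.2 n : ℝ) / Real.log (n : ℝ)) atTop
        (𝓝 (Real.exp Real.eulerMascheroniConstant / Real.log z.1))) := by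
  have haR : (1 : ℝ) < a := by exact_mod_cast ha
  have hab' : (1 : ℝ) ≤ (a : ℝ) - b := by
    have : (1 : ℤ) ≤ a - b := by omega
    exact_mod_cast this
  have hbabs : |(b : ℝ)| < a := by
    have : |b| < a := abs_lt.2 ⟨h1, h2⟩
    exact_mod_cast this
  have key := Pool.Agent.H447R2.ML.law (κ := max |(b : ℝ)| 1) (C := 1)
    (g := fun p => -((b : ℝ) ^ p / ((a : ℝ) - b))) (le_max_right _ _) (by
      intro p
      show |-((b : ℝ) ^ p / ((a : ℝ) - b))| ≤ 1 * (max |(b : ℝ)| 1) ^ p
      rw [abs_neg, abs_div, abs_pow, abs_of_pos (by linarith : (0 : ℝ) < (a : ℝ) - b), one_mul]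
      refine (div_le_self (pow_nonneg (abs_nonneg _) _) hab').trans ?_
      exact pow_le_pow_left₀ (abs_nonneg _) (le_max_left _ _) p)
  have hM : ∀ (x y : ℝ) (n : ℕ), Pool.Agent.H447R2.ML.cnt
      (fun p => -((b : ℝ) ^ p / ((a : ℝ) - b))) x y n = N a b x y n := by
    intro x y n
    unfold Pool.Agent.H447R2.ML.cnt N W
    simp only [← sub_eq_add_neg]
    rfl
  simp only [hM] at key
  refine ⟨⟨fun p hp hpd => W_special hab h1 h2 hp hpd, fun n => ?_⟩, max_lt hbabs haR, key⟩
  have hne : (a - b).natAbs ≠ 0 := by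
    rw [Int.natAbs_ne_zero]; omega
  have hmem : ∀ p : ℕ, p.Prime → (p : ℤ) ∣ a - b → p ∈ (a - b).natAbs.primeFactors := by
    intro p hp hd
    rw [Nat.mem_primeFactors]
    exact ⟨hp, Int.natCast_dvd.1 hd, hne⟩
  have hto : ∀ p : ℕ, p.Prime → ¬ (p : ℤ) ∣ a - b →
      ((a ^ p - b ^ p) / (a - b)).toNat = W a b a (1 / ((a : ℝ) - b)) p := by
    intro p hp hpd
    rw [← W_special hab h1 h2 hp hpd]
    simp
  constructor
  · unfold NM N
    refine le_trans (Finset.card_le_card (t := (Finset.range (n + 1)).filter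
      (fun p => p.Prime ∧ (W a b a (1 / ((a : ℝ) - b)) p).Prime) ∪ (a - b).natAbs.primeFactors) ?_)
      (Finset.card_union_le _ _)
    intro p hp
    rw [Finset.mem_filter] at hp
    by_cases hd : (p : ℤ) ∣ a - b
    · exact Finset.mem_union_right _ (hmem p hp.2.1 hd)
    · refine Finset.mem_union_left _ (Finset.mem_filter.2 ⟨hp.1, hp.2.1, ?_⟩)
      rw [← hto p hp.2.1 hd]
      exact hp.2.2
  · unfold NM N
    refine le_trans (Finset.card_le_card (t := (Finset.range (n + 1)).filter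
      (fun p => p.Prime ∧ ((a ^ p - b ^ p) / (a - b)).toNat.Prime) ∪
        (a - b).natAbs.primeFactors) ?_)
      (Finset.card_union_le _ _)
    intro p hp
    rw [Finset.mem_filter] at hp
    by_cases hd : (p : ℤ) ∣ a - b
    · exact Finset.mem_union_right _ (hmem p hp.2.1 hd)
    · refine Finset.mem_union_left _ (Finset.mem_filter.2 ⟨hp.1, hp.2.1, ?_⟩)
      rw [hto p hp.2.1 hd]
      exact hp.2.2

end Pool.Agent.Results.MP_de9007_nt.AsymptoticLaw
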