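import Mathlib
import Pool.Agent.H473R4.LocalBase
import Pool.Agent.H447R2.ML.Spec

set_option autoImplicit false

/-!
# The generalised Lenstra-Pomerance-Wagstaff constant for almost every real base

For real `c` and `x > max 1 |c|` and a prime `p` let `W c x p` be the `p`-rough part (the product,
with multiplicity, of the prime factors larger than `p`) of the integer part of
`(x ^ p - c ^ p) / (x - c)`, and let `N c x n` be the number of primes `p ≤ n` with `W c x p` prime.
For coprime integers `-a < b < a` and a prime `p` not dividing `a - b` the number `W b a p` is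
`M_p(a, b) = (a ^ p - b ^ p) / (a - b)` itself.  There is no auxiliary amplitude: `c` is any fixed
real number (such as the integer `b` of the question) and only the base `x` varies.  We prove that
for almost every `x > max 1 |c|` we have
`liminf N c x n / log n ≤ e ^ γ / log x ≤ limsup N c x n / log n`.
-/

namespace Pool.Agent.Results.MP_de9007_nt.RealBase

open Filter Topology MeasureTheory

/-- The product, with multiplicity, of the prime factors of `m` that are larger than `p`. -/
def roughPart (p m : ℕ) : ℕ := (m.primeFactorsList.filter (fun r => p < r)).prod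

/-- The `p`-rough part of the integer part of `(x ^ p - c ^ p) / (x - c)`. -/
noncomputable def W (c x : ℝ) (p : ℕ) : ℕ := roughPart p ⌊(x ^ p - c ^ p) / (x - c)⌋₊

/-- The number of primes `p ≤ n` for which `W c x p` is prime. -/
noncomputable def N (c x : ℝ) (n : ℕ) : ℕ :=
  ((Finset.range (n + 1)).filter (fun p => p.Prime ∧ (W c x p).Prime)).card

/-- The number of primes `p ≤ n` for which `M_p(a, b) = (a ^ p - b ^ p) / (a - b)` is prime. -/
def NM (a b : ℤ) (n : ℕ) : ℕ :=
  ((Finset.range (n + 1)).filter
    (fun p => p.Prime ∧ ((a ^ p - b ^ p) / (a - b)).toNat.Prime)).card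

lemma quot_eq {a b : ℤ} (h2 : b < a) (p : ℕ) :
    (a ^ p - b ^ p) / (a - b) = ∑ i ∈ Finset.range p, a ^ i * b ^ (p - 1 - i) := by
  have hgeom : (∑ i ∈ Finset.range p, a ^ i * b ^ (p - 1 - i)) * (a - b) = a ^ p - b ^ p :=
    (Commute.all a b).geom_sum₂_mul p
  rw [← hgeom]
  exact Int.mul_ediv_cancel _ (by omega)

lemma W_special {a b : ℤ} (hab : IsCoprime a b) (h1 : -a < b) (h2 : b < a) {p : ℕ}
    (hp : p.Prime) (hpd : ¬ (p : ℤ) ∣ a - b) :
    (W b a p : ℤ) = (a ^ p - b ^ p) / (a - b) := by
  have hne : (a : ℝ) - b ≠ 0 := by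
    have : (b : ℝ) < a := by exact_mod_cast h2
    linarith
  have h := Pool.Agent.H447R2.ML.rough_quot hab h1 h2 hp hpd
    (x := ((a : ℝ) ^ p - (b : ℝ) ^ p) / ((a : ℝ) - b)) (by field_simp)
  rw [quot_eq h2, ← h]
  rfl

/-- The numbers `M_p(a, b)` are the values at the integer points; the almost everywhere
statement. -/
theorem result :
    (∀ a b : ℤ, IsCoprime a b → -a < b → b < a →
      (∀ p : ℕ, p.Prime → ¬ (p : ℤ) ∣ a - b → (W b a p : ℤ) = (a ^ p - b ^ p) / (a - b)) ∧
      ∀ n : ℕ, NM a b n ≤ N b a n + (a - b).natAbs.primeFactors.card ∧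
        N b a n ≤ NM a b n + (a - b).natAbs.primeFactors.card) ∧
    (∀ c : ℝ, ∀ᵐ x : ℝ, max 1 |c| < x →
      (∀ r : ℝ, r < Real.exp Real.eulerMascheroniConstant / Real.log x →
        ∃ᶠ n : ℕ in atTop, r * Real.log n < N c x n) ∧
      (∀ r : ℝ, Real.exp Real.eulerMascheroniConstant / Real.log x < r →
        ∃ᶠ n : ℕ in atTop, (N c x n : ℝ) < r * Real.log n)) := by
  refine ⟨fun a b hab h1 h2 => ⟨fun p hp hpd => W_special hab h1 h2 hp hpd, fun n => ?_⟩,
    fun c => ?_⟩
  · have hne : (a - b).natAbs ≠ 0 := by
      rw [Int.natAbs_ne_zero]; omega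
    have hmem : ∀ p : ℕ, p.Prime → (p : ℤ) ∣ a - b → p ∈ (a - b).natAbs.primeFactors := by
      intro p hp hd
      rw [Nat.mem_primeFactors]
      exact ⟨hp, Int.natCast_dvd.1 hd, hne⟩
    have hto : ∀ p : ℕ, p.Prime → ¬ (p : ℤ) ∣ a - b →
        ((a ^ p - b ^ p) / (a - b)).toNat = W b a p := by
      intro p hp hpd
      rw [← W_special hab h1 h2 hp hpd]
      simp
    constructor
    · unfold NM N
      refine le_trans (Finset.card_le_card (t := (Finset.range (n + 1)).filter
        (fun p => p.Prime ∧ (W b a p).Prime) ∪ (a - b).natAbs.primeFactors) ?_)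
        (Finset.card_union_le _ _)
      intro p hp
      rw [Finset.mem_filter] at hp
      by_cases hd : (p : ℤ) ∣ a - b
      · exact Finset.mem_union_right _ (hmem p hp.2.1 hd)
      · refine Finset.mem_union_left _ (Finset.mem_filter.2 ⟨hp.1, hp.2.1, ?_⟩)
        rw [← hto p hp.2.1 hd]
        exact hp.2.2
    · unfold NM N
      refine le_trans (Finset.card_le_card (t := (Finset.range (n + 1)).filter
        (fun p => p.Prime ∧ ((a ^ p - b ^ p) / (a - b)).toNat.Prime) ∪
          (a - b).natAbs.primeFactors) ?_)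
        (Finset.card_union_le _ _)
      intro p hp
      rw [Finset.mem_filter] at hp
      by_cases hd : (p : ℤ) ∣ a - b
      · exact Finset.mem_union_right _ (hmem p hp.2.1 hd)
      · refine Finset.mem_union_left _ (Finset.mem_filter.2 ⟨hp.1, hp.2.1, ?_⟩)
        rw [hto p hp.2.1 hd]
        exact hp.2.2
  · have h := Pool.Agent.H473R4.one_param_val_loc (x0 := max 1 |c|) (le_max_left _ _)
      (val := fun p x => (x ^ p - c ^ p) / (x - c))
      (y' := fun p t => p * Real.exp t ^ p / (Real.exp t ^ p - c ^ p) -
        Real.exp t / (Real.exp t - c))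
      (fun p => ((measurable_id.pow_const p).sub_const _).div (measurable_id.sub_const c))
      (fun p hp x hx => by
        have hx0 : 0 < x := lt_trans (lt_of_lt_of_le one_pos (le_max_left _ _)) hx
        have hcx : |c| < x := lt_of_le_of_lt (le_max_right _ _) hx
        have h1 : c ^ p < x ^ p := by
          calc c ^ p ≤ |c| ^ p := by rw [← abs_pow]; exact le_abs_self _
            _ < x ^ p := pow_lt_pow_left₀ hcx (abs_nonneg _) (by omega)
        have h2 := le_abs_self c
        exact div_pos (by linarith) (by linarith))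
      (fun a0 a1 h0 h1 => Pool.Agent.H473R4.fam_quot c h0 h1)
    filter_upwards [h] with x hx h1
    exact hx h1

end Pool.Agent.Results.MP_de9007_nt.RealBase
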